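import Pool.Agent.TH8.OR.E

/-!
Polynomial growth of the degrees of the iterates implies birationality.
-/

set_option autoImplicit false

namespace Pool.Agent.T6.H45.KN

open MvPolynomial Filter
open Pool.Agent.TH8.OR

variable {k : Type} [Field k] {N : ℕ}

variable {p : Ideal (MvPolynomial (Fin (N + 1)) k)}
  {F : Fin (N + 1) → MvPolynomial (Fin (N + 1)) k} {d : ℕ}

theorem growthP (C κ L : ℕ) (h : ∀ n : ℕ, 2 ^ n ≤ (n * (C * (n + 1) ^ κ) + 1) ^ L) : False := by
  have h1 := (tendsto_pow_const_div_const_pow_of_one_lt ((κ + 1) * L)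
    (one_lt_two (α := ℝ))).comp (tendsto_add_atTop_nat 1)
  have hc : (0 : ℝ) < 1 / (2 * ((C + 1 : ℕ) : ℝ) ^ L) := by positivity
  obtain ⟨n, hn⟩ := (h1.eventually (gt_mem_nhds hc)).exists
  simp only [Function.comp] at hn
  rw [div_lt_div_iff₀ (by positivity) (by positivity)] at hn
  have h2 : (n * (C * (n + 1) ^ κ) + 1) ^ L ≤ ((C + 1) * (n + 1) ^ (κ + 1)) ^ L := by
    refine Nat.pow_le_pow_left ?_ L
    have h3 : 1 ≤ (n + 1) ^ (κ + 1) := Nat.one_le_pow _ _ (by omega)
    have h4 : n * (C * (n + 1) ^ κ) ≤ C * (n + 1) ^ (κ + 1) := by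
      rw [pow_succ]
      nlinarith [Nat.zero_le (C * (n + 1) ^ κ)]
    calc n * (C * (n + 1) ^ κ) + 1 ≤ C * (n + 1) ^ (κ + 1) + (n + 1) ^ (κ + 1) :=
          Nat.add_le_add h4 h3
      _ = (C + 1) * (n + 1) ^ (κ + 1) := by ring
  have h3 := (h n).trans h2
  have h4 : ((2 : ℝ)) ^ n ≤ ((C + 1 : ℕ) : ℝ) ^ L * ((n + 1 : ℕ) : ℝ) ^ ((κ + 1) * L) := by
    have h5 : (((2 ^ n : ℕ)) : ℝ) ≤ ((((C + 1) * (n + 1) ^ (κ + 1)) ^ L : ℕ) : ℝ) := by
      exact_mod_cast h3
    push_cast at h5 ⊢
    rw [mul_pow, ← pow_mul] at h5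
    exact h5
  rw [pow_succ] at hn
  linarith

/-- If the degrees of the iterates grow polynomially then the map is invertible. -/
theorem invertible_of_growthP (hp : p.IsPrime) (hF : ∀ j, (F j).IsHomogeneous d)
    (hdom : ∀ (e : ℕ) (H : MvPolynomial (Fin (N + 1)) k), H.IsHomogeneous e →
      (aeval F H ∈ p ↔ H ∈ p)) {j0 : Fin (N + 1)} (hj0 : X j0 ∉ p)
    {C κ : ℕ} (hgrow : ∀ n, ∃ e ≤ C * (n + 1) ^ κ, GivenBy p F n e) : Invertible p F := by
  classical
  by_cases hall : ∀ j, ∃ (e : ℕ) (A B : MvPolynomial (Fin (N + 1)) k), A.IsHomogeneous e ∧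
      B.IsHomogeneous e ∧ B ∉ p ∧ X j * aeval F B - X j0 * aeval F A ∈ p
  · choose e A B h1 h2 h3 h4 using hall
    have hQ : ∏ i, aeval F (B i) ∉ p := by
      intro hcon
      obtain ⟨i, _, hi⟩ := hp.prod_mem_iff.1 hcon
      exact h3 i ((hdom _ _ (h2 i)).1 hi)
    have hG : ∀ j, X j0 * aeval F (A j * ∏ i ∈ Finset.univ.erase j, B i)
        - X j * ∏ i, aeval F (B i) ∈ p := by
      intro j
      have h5 := p.mul_mem_left (-∏ i ∈ Finset.univ.erase j, aeval F (B i)) (h4 j)
      have h6 : ∏ i, aeval F (B i) = aeval F (B j) * ∏ i ∈ Finset.univ.erase j, aeval F (B i) :=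
        (Finset.mul_prod_erase Finset.univ (fun i => aeval F (B i)) (Finset.mem_univ j)).symm
      rw [h6, map_mul, map_prod]
      have h7 : X j0 * (aeval F (A j) * ∏ i ∈ Finset.univ.erase j, aeval F (B i))
          - X j * (aeval F (B j) * ∏ i ∈ Finset.univ.erase j, aeval F (B i))
          = -(∏ i ∈ Finset.univ.erase j, aeval F (B i)) *
            (X j * aeval F (B j) - X j0 * aeval F (A j)) := by ring
      rw [h7]
      exact h5
    refine ⟨∑ i, e i, fun j => A j * ∏ i ∈ Finset.univ.erase j, B i, fun j => ?_, ⟨j0, ?_⟩, ?_⟩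
    · rw [← Finset.add_sum_erase Finset.univ e (Finset.mem_univ j)]
      exact (h1 j).mul (IsHomogeneous.prod _ _ _ fun i _ => h2 i)
    · intro hcon
      have h5 := p.sub_mem (p.mul_mem_left (X j0) hcon) (hG j0)
      rw [sub_sub_cancel] at h5
      exact hQ ((hp.mem_or_mem h5).resolve_left hj0)
    · intro i j
      have h5 := p.sub_mem (p.mul_mem_left (X j) (hG i)) (p.mul_mem_left (X i) (hG j))
      refine (hp.mem_or_mem (?_ : X j0 * _ ∈ p)).resolve_left hj0
      have h6 : X j0 * (aeval F (A i * ∏ l ∈ Finset.univ.erase i, B l) * X j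
          - aeval F (A j * ∏ l ∈ Finset.univ.erase j, B l) * X i)
          = X j * (X j0 * aeval F (A i * ∏ l ∈ Finset.univ.erase i, B l)
            - X i * ∏ l, aeval F (B l))
          - X i * (X j0 * aeval F (A j * ∏ l ∈ Finset.univ.erase j, B l)
            - X j * ∏ l, aeval F (B l)) := by ring
      rw [h6]
      exact h5
  · exfalso
    push Not at hall
    obtain ⟨j, hj⟩ := hall
    choose e he G g1 g2 g3 using hgrow
    have hGj0 : ∀ i, G i j0 ∉ p := by
      intro i hcon
      obtain ⟨l, hl⟩ := g2 i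
      have h5 := p.add_mem (g3 i l j0) (p.mul_mem_right (iter F i l) hcon)
      rw [sub_add_cancel] at h5
      exact (hp.mem_or_mem h5).elim hl (iter_notMem (fun e H hH => (hdom e H hH).1) hF hj0 i)
    refine growthP C κ (N + 1) fun n => ?_
    have hcard := card_le (k := k) (fun ε : Fin n → Bool =>
      ∏ i : Fin n, G i (if ε i then j else j0)) (D := ∑ i : Fin n, e i)
      (fun ε => IsHomogeneous.prod _ _ _ fun i _ => g1 i _) (by
        intro c hc
        refine Om_indep hp hF hdom hj0 (fun e A B hA hB hBp => hj e A B hA hB hBp) n c ?_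
        have h5 : (∑ ε, MvPolynomial.C (c ε) * Om F j j0 n ε) * ∏ i : Fin n, G i j0 ∈ p := by
          rw [← Ideal.Quotient.eq_zero_iff_mem, map_mul, map_sum, map_prod, Finset.sum_mul]
          have h6 := congrArg (fun z => Ideal.Quotient.mk p z *
            ∏ i : Fin n, Ideal.Quotient.mk p (iter F i j0)) hc
          simp only [map_zero, zero_mul, map_sum, Finset.sum_mul] at h6
          rw [← h6]
          refine Finset.sum_congr rfl fun ε _ => ?_
          rw [map_mul, map_mul, mul_assoc, mul_assoc, Om_eq, map_prod, map_prod,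
            ← Finset.prod_mul_distrib, ← Finset.prod_mul_distrib]
          congr 1
          refine Finset.prod_congr rfl fun i _ => ?_
          have h7 := g3 i (if ε i then j else j0) j0
          rw [← Ideal.Quotient.eq_zero_iff_mem, map_sub, map_mul, map_mul, sub_eq_zero] at h7
          rw [h7, mul_comm]
        refine (hp.mem_or_mem h5).resolve_right fun hcon => ?_
        obtain ⟨i, _, hi⟩ := hp.prod_mem_iff.1 hcon
        exact hGj0 i hi)
    rw [Fintype.card_fun, Fintype.card_bool, Fintype.card_fin] at hcard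
    refine hcard.trans (Nat.pow_le_pow_left ?_ _)
    have h8 : ∑ i : Fin n, e i ≤ n * (C * (n + 1) ^ κ) := by
      refine (Finset.sum_le_card_nsmul Finset.univ _ (C * (n + 1) ^ κ) fun i _ => ?_).trans ?_
      · exact (he i).trans (by have := i.2.le; gcongr)
      · rw [Finset.card_univ, Fintype.card_fin, smul_eq_mul]
    omega

end Pool.Agent.T6.H45.KN
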