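import Pool.Agent.TH8.OR.E
import Pool.Agent.T6.H45.Hol.Fin

/-!
A projective variety of positive dimension with a Zariski-dense sequence of points with nested
coordinates is covered by rational curves.
-/

set_option autoImplicit false

namespace Pool.Agent.T6.H45.KN

open MvPolynomial Filter
open Pool.Agent.TH143.HE

variable {k : Type} [Field k] {N : ℕ}

variable {p : Ideal (MvPolynomial (Fin (N + 1)) k)} {x : ℕ → Fin (N + 1) → k}

theorem not_point (hx0 : ∀ m, x m ≠ 0)
    (hdense : ∀ (e : ℕ) (G : MvPolynomial (Fin (N + 1)) k), G.IsHomogeneous e →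
      ((∀ m, eval (x m) G = 0) ↔ G ∈ p))
    (hnc : ¬ ∀ m i j, x m i * x 0 j = x m j * x 0 i) (m : ℕ) :
    ∃ i j, C (x m i) * X j - C (x m j) * X i ∉ p := by
  by_contra hcon
  push Not at hcon
  have h1 : ∀ l i j, x m i * x l j = x m j * x l i := by
    intro l i j
    have hhom : (C (x m i) * X j - C (x m j) * X i : MvPolynomial (Fin (N + 1)) k).IsHomogeneous
        (0 + 1) :=
      ((isHomogeneous_C _ _).mul (isHomogeneous_X k j)).sub
        ((isHomogeneous_C _ _).mul (isHomogeneous_X k i))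
    have h2 := (hdense _ _ hhom).2 (hcon i j) l
    simp only [map_sub, map_mul, eval_C, eval_X] at h2
    exact sub_eq_zero.1 h2
  obtain ⟨i0, hi0⟩ := Function.ne_iff.1 (hx0 m)
  have hi0' : x m i0 ≠ 0 := hi0
  apply hnc
  intro l i j
  have e1 := h1 l i0 i
  have e2 := h1 l i0 j
  have e3 := h1 0 i0 i
  have e4 := h1 0 i0 j
  have h5 : x m i0 * x m i0 * (x l i * x 0 j) = x m i0 * x m i0 * (x l j * x 0 i) := by
    calc x m i0 * x m i0 * (x l i * x 0 j) = (x m i0 * x l i) * (x m i0 * x 0 j) := by ring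
      _ = (x m i * x l i0) * (x m j * x 0 i0) := by rw [e1, e4]
      _ = (x m j * x l i0) * (x m i * x 0 i0) := by ring
      _ = (x m i0 * x l j) * (x m i0 * x 0 i) := by rw [e2, e3]
      _ = _ := by ring
  exact mul_left_cancel₀ (mul_ne_zero hi0' hi0') h5

theorem uniruled (hp : p.IsPrime) (hx0 : ∀ m, x m ≠ 0)
    (hdense : ∀ (e : ℕ) (G : MvPolynomial (Fin (N + 1)) k), G.IsHomogeneous e →
      ((∀ m, eval (x m) G = 0) ↔ G ∈ p))
    (hnc : ¬ ∀ m i j, x m i * x 0 j = x m j * x 0 i) (τ : k →+* ℂ)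
    (hx : ∀ j, Pool.Agent.T6.H45.Hol.Nested k fun m => x m j)
    {e : ℕ} {G : MvPolynomial (Fin (N + 1)) k} (hG : G.IsHomogeneous e) (hGp : G ∉ p) :
    ¬ RatCurvesIn τ p (Ideal.span {G}) := by
  classical
  intro hRC
  have hX : ∀ m, IsPtP (RingHom.id k) p (x m) := by
    intro m F hF hFh
    obtain ⟨d, hd⟩ := hFh
    exact (hdense d F hd).2 hF m
  obtain ⟨K, hK, hsec⟩ := Pool.Agent.T6.H45.Hol.nested_alt (RingHom.id k) τ p (Ideal.span {G})
    (by rwa [RingHom.comp_id]) x hx (Eventually.of_forall hX)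
  have hform : ∀ i, ∃ (e' : ℕ) (H : MvPolynomial (Fin (N + 1)) k), H.IsHomogeneous e' ∧ H ∉ p ∧
      ∀ᶠ n in atTop, eval (x (K * n + i)) H = 0 := by
    intro i
    rcases hsec i with ⟨c, _, hc⟩ | h
    · obtain ⟨n1, hn1⟩ := eventually_atTop.1 hc
      obtain ⟨a, b, hab⟩ := not_point hx0 hdense hnc (K * n1 + i)
      refine ⟨0 + 1, _, ((isHomogeneous_C _ _).mul (isHomogeneous_X k b)).sub
        ((isHomogeneous_C _ _).mul (isHomogeneous_X k a)), hab, ?_⟩
      filter_upwards [eventually_ge_atTop n1] with n hn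
      obtain ⟨s, hs⟩ := hn1 n hn
      obtain ⟨s', hs'⟩ := hn1 n1 le_rfl
      simp only [map_sub, map_mul, eval_C, eval_X]
      apply τ.injective
      rw [map_sub, map_mul, map_mul, map_zero, hs, hs, hs', hs']
      ring
    · refine ⟨e, G, hG, hGp, ?_⟩
      filter_upwards [h] with n hn
      exact hn G (Ideal.mem_span_singleton_self G) ⟨e, hG⟩
  choose e' H hH hHp hHv using hform
  have hprod : (∏ i ∈ Finset.range K, H i).IsHomogeneous (∑ i ∈ Finset.range K, e' i) :=
    IsHomogeneous.prod _ _ _ fun i _ => hH i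
  have hprodp : ∏ i ∈ Finset.range K, H i ∉ p := by
    intro hcon
    obtain ⟨i, _, hi⟩ := hp.prod_mem_iff.1 hcon
    exact hHp i hi
  refine Pool.Agent.TH8.OR.tail hp hx0 hdense hnc hprod hprodp ?_
  choose n0 hn0 using fun i => eventually_atTop.1 (hHv i)
  filter_upwards [eventually_ge_atTop (K * ((Finset.range K).sup n0 + 1))] with m hm
  rw [map_prod]
  have h2 : K * (m / K) + m % K = m := Nat.div_add_mod m K
  have h3 : m % K < K := Nat.mod_lt _ hK
  have h4 : n0 (m % K) ≤ (Finset.range K).sup n0 :=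
    Finset.le_sup (f := n0) (Finset.mem_range.2 h3)
  have h5 : (Finset.range K).sup n0 + 1 ≤ m / K :=
    (Nat.le_div_iff_mul_le hK).2 (by rw [mul_comm]; exact hm)
  refine Finset.prod_eq_zero (Finset.mem_range.2 h3) ?_
  have h6 := hn0 (m % K) (m / K) (by omega)
  rwa [h2] at h6

end Pool.Agent.T6.H45.KN
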