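import Mathlib

/-!
Descent of degree bounds: an element of a field generated by `M` which is a quotient of elements of
degree `e` over a larger finitely generated field is a quotient of elements of degree `C e`.
-/

set_option autoImplicit false

namespace Pool.Agent.T6.H45.KN

open Submodule Finset

section ring

variable {k R : Type} [Field k] [CommRing R] [Algebra k R]

theorem pm {M : Submodule k R} (h1 : (1:R) ∈ M) {a b : ℕ} (h : a ≤ b) {x : R} (hx : x ∈ M ^ a) :
    x ∈ M ^ b := by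
  obtain ⟨c, rfl⟩ := Nat.exists_eq_add_of_le h
  have h2 : (1:R) ∈ M ^ c := by
    have := pow_mem_pow M h1 c
    rwa [one_pow] at this
  rw [pow_add]
  simpa using mul_mem_mul hx h2

theorem mm {M : Submodule k R} {a b c : ℕ} (h : a + b = c) {x y : R} (hx : x ∈ M ^ a)
    (hy : y ∈ M ^ b) : x * y ∈ M ^ c := by
  rw [← h, pow_add]
  exact mul_mem_mul hx hy

/-- elements of the powers of `M + k s` -/
theorem sup_pow {M : Submodule k R} (s : R) (e : ℕ) {x : R}
    (hx : x ∈ (M ⊔ span k {s}) ^ e) :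
    ∃ a : ℕ → R, (∀ j, j ≤ e → a j ∈ M ^ (e - j)) ∧ x = ∑ j ∈ range (e + 1), a j * s ^ j := by
  induction e generalizing x with
  | zero =>
    rw [pow_zero] at hx
    refine ⟨fun _ => x, fun j hj => ?_, by simp⟩
    rw [Nat.zero_sub, pow_zero]
    exact hx
  | succ e ih =>
    rw [pow_succ] at hx
    refine Submodule.mul_induction_on hx (fun y hy z hz => ?_) (fun y z hy hz => ?_)
    · obtain ⟨m, hm, w, hw, rfl⟩ := mem_sup.1 hz
      obtain ⟨c, rfl⟩ := mem_span_singleton.1 hw
      obtain ⟨a, ha, rfl⟩ := ih hy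
      refine ⟨fun j => (if j ≤ e then a j * m else 0) + (if 1 ≤ j then c • a (j - 1) else 0),
        fun j hj => ?_, ?_⟩
      · refine add_mem ?_ ?_
        · split_ifs with h
          · refine mm (a := e - j) (b := 1) (by omega) (ha j h) ?_
            rwa [pow_one]
          · exact zero_mem _
        · split_ifs with h
          · refine smul_mem _ _ ?_
            have h2 := ha (j - 1) (by omega)
            rwa [show e - (j - 1) = e + 1 - j by omega] at h2
          · exact zero_mem _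
      · simp only [add_mul, sum_add_distrib]
        rw [mul_add, sum_range_succ _ (e + 1)]
        congr 1
        · rw [if_neg (by omega), zero_mul, add_zero, sum_mul]
          refine sum_congr rfl fun j hj => ?_
          rw [if_pos (by have := mem_range.1 hj; omega)]
          ring
        · rw [sum_range_succ' _ (e + 1)]
          rw [if_neg (by omega), zero_mul, add_zero, sum_mul]
          refine sum_congr rfl fun j hj => ?_
          rw [if_pos (by omega), Nat.add_sub_cancel, pow_succ]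
          simp only [Algebra.smul_def]
          ring
    · obtain ⟨a, ha, rfl⟩ := hy
      obtain ⟨b, hb, rfl⟩ := hz
      refine ⟨fun j => a j + b j, fun j hj => add_mem (ha j hj) (hb j hj), ?_⟩
      simp only [add_mul, sum_add_distrib]

theorem pw {M : Submodule k R} {a : ℕ} (c : ℕ) {x : R} (hx : x ∈ M ^ a) : x ^ c ∈ M ^ (c * a) := by
  rw [mul_comm c a, pow_mul]
  exact pow_mem_pow _ hx c

theorem prod_pw {M : Submodule k R} {ι : Type} (s : Finset ι) (x : ι → R) (a : ι → ℕ)
    (hx : ∀ i ∈ s, x i ∈ M ^ a i) : ∏ i ∈ s, x i ∈ M ^ ∑ i ∈ s, a i := by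
  classical
  induction s using Finset.induction_on with
  | empty =>
    rw [Finset.prod_empty, Finset.sum_empty, pow_zero]
    exact one_le.1 le_rfl
  | insert i s hi ih =>
    rw [Finset.prod_insert hi, Finset.sum_insert hi]
    exact mm rfl (hx i (mem_insert_self _ _)) (ih fun j hj => hx j (mem_insert_of_mem hj))

end ring

variable {k R : Type} [Field k] [Field R] [Algebra k R]

/-- quotients of elements of powers of `M` -/
def Fr (M : Submodule k R) (φ : R) : Prop :=
  ∃ (e : ℕ) (u v : R), u ∈ M ^ e ∧ v ∈ M ^ e ∧ v ≠ 0 ∧ φ * v = u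

/-- a relation of length `d` -/
def Rel (M : Submodule k R) (s : R) (d : ℕ) : Prop :=
  ∃ (E : ℕ) (a : ℕ → R), (∀ i ≤ d, a i ∈ M ^ E) ∧ a d ≠ 0 ∧ ∑ i ∈ range (d + 1), a i * s ^ i = 0

theorem indep {M : Submodule k R} {s : R} {d : ℕ} (h : ∀ d' < d, ¬ Rel M s d') {E : ℕ} {b : ℕ → R}
    (hb : ∀ i < d, b i ∈ M ^ E) (h0 : ∑ i ∈ range d, b i * s ^ i = 0) : ∀ i < d, b i = 0 := by
  induction d with
  | zero => intro i hi; omega
  | succ d ih =>
    have hd : b d = 0 := by
      by_contra hne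
      exact h d (by omega) ⟨E, b, fun i hi => hb i (by omega), hne, h0⟩
    intro i hi
    rcases Nat.lt_succ_iff_lt_or_eq.1 hi with h1 | h1
    · refine ih (fun d' hd' => h d' (by omega)) (fun i hi => hb i (by omega)) ?_ i h1
      rw [sum_range_succ, hd, zero_mul, add_zero] at h0
      exact h0
    · rw [h1]; exact hd

/-- comparison of coefficients -/
theorem compare {M : Submodule k R} {s φ : R} (hφ : Fr M φ) {d : ℕ}
    (h : ∀ d' < d, ¬ Rel M s d') {E : ℕ} {b c : ℕ → R}
    (hb : ∀ i < d, b i ∈ M ^ E) (hc : ∀ i < d, c i ∈ M ^ E)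
    (h0 : φ * ∑ i ∈ range d, b i * s ^ i = ∑ i ∈ range d, c i * s ^ i)
    (hne : ∑ i ∈ range d, b i * s ^ i ≠ 0) :
    ∃ A ∈ M ^ E, ∃ B ∈ M ^ E, A ≠ 0 ∧ φ * A = B := by
  obtain ⟨e, u, v, hu, hv, hv0, huv⟩ := hφ
  have h2 : ∀ i < d, u * b i - v * c i = 0 := by
    refine indep h (E := e + E) (fun i hi => ?_) ?_
    · exact sub_mem (mm rfl hu (hb i hi)) (mm rfl hv (hc i hi))
    · simp only [sub_mul, sum_sub_distrib, mul_assoc]
      rw [← mul_sum, ← mul_sum, ← h0, ← huv]
      ring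
  obtain ⟨i, hi, hne'⟩ := exists_ne_zero_of_sum_ne_zero hne
  have hi' := mem_range.1 hi
  have hbi : b i ≠ 0 := fun h3 => hne' (by rw [h3, zero_mul])
  refine ⟨b i, hb i hi', c i, hc i hi', hbi, ?_⟩
  have h3 := h2 i hi'
  rw [← huv, sub_eq_zero] at h3
  refine mul_left_cancel₀ hv0 ?_
  rw [← h3]; ring

/-- powers of an algebraic element -/
theorem powers {M : Submodule k R} {s : R} {d E : ℕ} {a : ℕ → R}
    (ha : ∀ i ≤ d + 1, a i ∈ M ^ E) (h0 : ∑ i ∈ range (d + 2), a i * s ^ i = 0) (j : ℕ) :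
    ∃ c : ℕ → R, (∀ i < d + 1, c i ∈ M ^ (E * j)) ∧
      a (d + 1) ^ j * s ^ j = ∑ i ∈ range (d + 1), c i * s ^ i := by
  induction j with
  | zero =>
    refine ⟨fun i => if i = 0 then 1 else 0, fun i hi => ?_, ?_⟩
    · rw [Nat.mul_zero, pow_zero]
      show (if i = 0 then (1:R) else 0) ∈ _
      split_ifs
      · exact one_le.1 le_rfl
      · exact zero_mem _
    · rw [sum_range_succ']
      simp
  | succ j ih =>
    obtain ⟨c, hc, hcs⟩ := ih
    refine ⟨fun i => (if 1 ≤ i then a (d + 1) * c (i - 1) else 0) - c d * a i, fun i hi => ?_, ?_⟩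
    · refine sub_mem ?_ (mm (by ring) (hc d (by omega)) (ha i (by omega)))
      split_ifs with h
      · exact mm (by ring) (ha (d + 1) le_rfl) (hc (i - 1) (by omega))
      · exact zero_mem _
    · have e1 : a (d + 1) ^ (j + 1) * s ^ (j + 1) =
          a (d + 1) * s * ∑ i ∈ range (d + 1), c i * s ^ i := by
        rw [← hcs]; ring
      rw [e1]
      rw [sum_range_succ] at h0
      have e2 : a (d + 1) * s ^ (d + 1) = -∑ i ∈ range (d + 1), a i * s ^ i := by
        linear_combination h0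
      simp only [sub_mul, sum_sub_distrib]
      have e3 : ∑ i ∈ range (d + 1), c d * a i * s ^ i
          = c d * ∑ i ∈ range (d + 1), a i * s ^ i := by
        rw [mul_sum]; exact sum_congr rfl fun i _ => by ring
      have e4 : ∑ i ∈ range (d + 1), (if 1 ≤ i then a (d + 1) * c (i - 1) else 0) * s ^ i
          = ∑ i ∈ range d, a (d + 1) * c i * s ^ (i + 1) := by
        rw [sum_range_succ', if_neg (by omega), zero_mul, add_zero]
        refine sum_congr rfl fun i _ => ?_
        rw [if_pos (by omega), Nat.add_sub_cancel]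
      rw [e3, e4, sum_range_succ, mul_add]
      have e5 : a (d + 1) * s * ∑ i ∈ range d, c i * s ^ i
          = ∑ i ∈ range d, a (d + 1) * c i * s ^ (i + 1) := by
        rw [mul_sum]; exact sum_congr rfl fun i _ => by ring
      rw [e5]
      linear_combination c d * e2

/-- reduction of an element of degree `e` -/
theorem reduce {M : Submodule k R} (h1 : (1:R) ∈ M) {s : R} {d E : ℕ} {a : ℕ → R}
    (ha : ∀ i ≤ d + 1, a i ∈ M ^ E) (h0 : ∑ i ∈ range (d + 2), a i * s ^ i = 0) {e : ℕ} {A : R}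
    (hA : A ∈ (M ⊔ span k {s}) ^ e) :
    ∃ c : ℕ → R, (∀ i < d + 1, c i ∈ M ^ ((1 + E) * e)) ∧
      a (d + 1) ^ e * A = ∑ i ∈ range (d + 1), c i * s ^ i := by
  obtain ⟨α, hα, rfl⟩ := sup_pow s e hA
  choose c hc hcs using powers ha h0
  refine ⟨fun i => ∑ j ∈ range (e + 1), α j * a (d + 1) ^ (e - j) * c j i, fun i hi => ?_, ?_⟩
  · refine sum_mem fun j hj => ?_
    have hj' : j ≤ e := by have := mem_range.1 hj; omega
    have h2 : a (d + 1) ^ (e - j) ∈ M ^ (E * (e - j)) := by
      rw [pow_mul]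
      exact pow_mem_pow _ (ha (d + 1) le_rfl) _
    have h3 := mm rfl (mm rfl (hα j hj') h2) (hc j i hi)
    refine pm h1 ?_ h3
    have h4 : E * (e - j) + E * j = E * e := by rw [← Nat.mul_add, Nat.sub_add_cancel hj']
    calc e - j + E * (e - j) + E * j = e - j + (E * (e - j) + E * j) := by ring
      _ = e - j + E * e := by rw [h4]
      _ ≤ e + E * e := by omega
      _ = (1 + E) * e := by ring
  · simp only [sum_mul]
    rw [sum_comm, mul_sum]
    refine sum_congr rfl fun j hj => ?_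
    have hj' : j ≤ e := by have := mem_range.1 hj; omega
    have e1 : a (d + 1) ^ e = a (d + 1) ^ (e - j) * a (d + 1) ^ j := by
      rw [← pow_add, Nat.sub_add_cancel hj']
    have e2 : ∑ i ∈ range (d + 1), α j * a (d + 1) ^ (e - j) * c j i * s ^ i
        = α j * a (d + 1) ^ (e - j) * ∑ i ∈ range (d + 1), c j i * s ^ i := by
      rw [mul_sum]; exact sum_congr rfl fun i _ => by ring
    rw [e2, ← hcs, e1]
    ring

/-- one more element -/
theorem step (M : Submodule k R) (h1 : (1:R) ∈ M) (s : R) :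
    ∃ C : ℕ, ∀ (φ : R), Fr M φ → ∀ (e : ℕ) (A B : R), A ∈ (M ⊔ span k {s}) ^ e →
      B ∈ (M ⊔ span k {s}) ^ e → A ≠ 0 → φ * A = B →
      ∃ A' ∈ M ^ (C * e), ∃ B' ∈ M ^ (C * e), A' ≠ 0 ∧ φ * A' = B' := by
  classical
  by_cases hrel : ∃ d, Rel M s d
  · have hd := Nat.find_spec hrel
    have hmin := fun d' (hd' : d' < Nat.find hrel) => Nat.find_min hrel hd'
    obtain ⟨d, hdd⟩ : ∃ d, Nat.find hrel = d := ⟨_, rfl⟩
    rw [hdd] at hd hmin
    obtain ⟨E, a, ha, had, h0⟩ := hd
    rcases d with _ | d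
    · exfalso
      apply had
      simpa using h0
    · refine ⟨1 + E, fun φ hφ e A B hA hB hA0 hAB => ?_⟩
      obtain ⟨b, hb, hb'⟩ := reduce h1 ha h0 hA
      obtain ⟨c, hc, hc'⟩ := reduce h1 ha h0 hB
      refine compare hφ hmin hb hc ?_ ?_
      · rw [← hb', ← hc', ← hAB]; ring
      · rw [← hb']; exact mul_ne_zero (pow_ne_zero _ had) hA0
  · push Not at hrel
    refine ⟨1, fun φ hφ e A B hA hB hA0 hAB => ?_⟩
    obtain ⟨b, hb, rfl⟩ := sup_pow s e hA
    obtain ⟨c, hc, rfl⟩ := sup_pow s e hB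
    refine compare hφ (d := e + 1) (fun d' _ => hrel d') (fun i hi => ?_) (fun i hi => ?_)
      hAB hA0
    · exact pm h1 (by omega) (hb i (by omega))
    · exact pm h1 (by omega) (hc i (by omega))

theorem Fr.mono {M M' : Submodule k R} (h : M ≤ M') {φ : R} (hφ : Fr M φ) : Fr M' φ := by
  obtain ⟨e, u, v, hu, hv, hv0, huv⟩ := hφ
  have h2 : M ^ e ≤ M' ^ e := pow_le_pow_left' h e
  exact ⟨e, u, v, h2 hu, h2 hv, hv0, huv⟩

/-- **Descent of degree bounds.** -/
theorem desc (M : Submodule k R) (h1 : (1:R) ∈ M) (S : Finset R) :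
    ∃ C : ℕ, ∀ (φ : R), Fr M φ → ∀ (e : ℕ) (A B : R), A ∈ (M ⊔ span k (S : Set R)) ^ e →
      B ∈ (M ⊔ span k (S : Set R)) ^ e → A ≠ 0 → φ * A = B →
      ∃ A' ∈ M ^ (C * e), ∃ B' ∈ M ^ (C * e), A' ≠ 0 ∧ φ * A' = B' := by
  classical
  induction S using Finset.induction_on with
  | empty =>
    refine ⟨1, fun φ hφ e A B hA hB hA0 hAB => ?_⟩
    simp only [coe_empty, span_empty, sup_bot_eq] at hA hB
    rw [one_mul]
    exact ⟨A, hA, B, hB, hA0, hAB⟩
  | insert s S _ ih =>
    obtain ⟨C, hC⟩ := ih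
    obtain ⟨C', hC'⟩ := step (M ⊔ span k (S : Set R)) (mem_sup_left h1) s
    refine ⟨C * C', fun φ hφ e A B hA hB hA0 hAB => ?_⟩
    have e1 : M ⊔ span k ((insert s S : Finset R) : Set R) =
        M ⊔ span k (S : Set R) ⊔ span k {s} := by
      rw [coe_insert, Set.insert_eq, span_union, sup_comm (span k {s}), sup_assoc]
    rw [e1] at hA hB
    obtain ⟨A', hA', B', hB', hA0', hAB'⟩ := hC' φ (hφ.mono le_sup_left) e A B hA hB hA0 hAB
    obtain ⟨A2, hA2, B2, hB2, hA02, hAB2⟩ := hC φ hφ (C' * e) A' B' hA' hB' hA0' hAB'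
    rw [← mul_assoc] at hA2 hB2
    exact ⟨A2, hA2, B2, hB2, hA02, hAB2⟩

end Pool.Agent.T6.H45.KN
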