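import Pool.Agent.T6.H45.KN.Fl

/-!
Sequences given by nested recursions of degree at most `δ`: the shifted sequences are quotients of
polynomials of degree at most `C (n + 1) ^ κ δ ^ n` in finitely many fixed sequences.
-/

set_option autoImplicit false

namespace Pool.Agent.T6.H45.KN

open Filter Submodule Finset

variable {k : Type} [Field k]

/-- the smallest class of sequences in the field `k` which contains the constant sequences, is
closed under eventual equality, sums, products and inverses of eventually nonvanishing sequences,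
and contains the coordinates of the orbits `y (n + 1) = Φ n (y n)` of the sequences of rational maps
`Φ n` of degree at most `δ` whose coefficients are sequences in the class. -/
inductive Nest (δ : ℕ) : (ℕ → k) → Prop
  | const (c : k) : Nest δ (fun _ => c)
  | congr {f g : ℕ → k} : Nest δ f → (∀ᶠ n in atTop, f n = g n) → Nest δ g
  | add {f g : ℕ → k} : Nest δ f → Nest δ g → Nest δ (fun n => f n + g n)
  | mul {f g : ℕ → k} : Nest δ f → Nest δ g → Nest δ (fun n => f n * g n)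
  | inv {f : ℕ → k} : Nest δ f → (∀ᶠ n in atTop, f n ≠ 0) → Nest δ (fun n => (f n)⁻¹)
  | orbit {r : ℕ} {E : Finset (Fin r → ℕ)} {a : Fin r → (Fin r → ℕ) → ℕ → k}
      {b : (Fin r → ℕ) → ℕ → k} {y : ℕ → Fin r → k} :
      (∀ e ∈ E, ∑ l, e l ≤ δ) → (∀ i, ∀ e ∈ E, Nest δ (a i e)) → (∀ e ∈ E, Nest δ (b e)) →
      (∀ᶠ n in atTop, ∑ e ∈ E, b e n * ∏ l, y n l ^ e l ≠ 0 ∧
        ∀ i, y (n + 1) i * ∑ e ∈ E, b e n * ∏ l, y n l ^ e l =
          ∑ e ∈ E, a i e n * ∏ l, y n l ^ e l) →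
      ∀ i, Nest δ (fun n => y n i)

/-- polynomials of degree at most one in the sequences in `S` -/
def MS (S : Finset (ℕ → k)) : Submodule k (ℕ → k) := span k (insert 1 (S : Set (ℕ → k)))

theorem one_MS (S : Finset (ℕ → k)) : (1 : ℕ → k) ∈ MS S := subset_span (Set.mem_insert _ _)

theorem mem_MS {S : Finset (ℕ → k)} {f : ℕ → k} (hf : f ∈ S) : f ∈ MS S :=
  subset_span (Set.mem_insert_of_mem _ hf)

theorem MS_mono {S S' : Finset (ℕ → k)} (h : S ⊆ S') (e : ℕ) : MS S ^ e ≤ MS S' ^ e :=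
  pow_le_pow_left' (span_mono (Set.insert_subset_insert (by exact_mod_cast h))) e

/-- the bound -/
def q (δ C κ n : ℕ) : ℕ := C * (n + 1) ^ κ * δ ^ n

theorem q_mono {δ C C' κ κ' n : ℕ} (h1 : C ≤ C') (h2 : κ ≤ κ') : q δ C κ n ≤ q δ C' κ' n := by
  unfold q
  exact Nat.mul_le_mul_right _ (Nat.mul_le_mul h1 (Nat.pow_le_pow_right (by omega) h2))

theorem q_add (δ C C' κ n : ℕ) : q δ C κ n + q δ C' κ n = q δ (C + C') κ n := by
  unfold q; ring

theorem q_sum {ι : Type} (s : Finset ι) (δ : ℕ) (C : ι → ℕ) (κ n : ℕ) :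
    ∑ i ∈ s, q δ (C i) κ n = q δ (∑ i ∈ s, C i) κ n := by
  unfold q
  rw [← sum_mul, ← sum_mul]

/-- common representation of the shifts of finitely many sequences -/
def GrF (δ : ℕ) {ι : Type} (f : ι → ℕ → k) : Prop :=
  ∃ (S : Finset (ℕ → k)) (C κ : ℕ), ∀ n, ∃ D ∈ MS S ^ q δ C κ n, ∃ B : ι → ℕ → k,
    (∀ i, B i ∈ MS S ^ q δ C κ n) ∧ ∀ᶠ m in atTop, D m ≠ 0 ∧ ∀ i, D m * f i (m + n) = B i m

/-- the same for one sequence -/
def Gr (δ : ℕ) (f : ℕ → k) : Prop := GrF δ fun _ : Unit => f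

theorem fam {δ : ℕ} {ι : Type} [Fintype ι] (f : ι → ℕ → k) (h : ∀ i, Gr δ (f i)) : GrF δ f := by
  classical
  choose S C κ h using h
  refine ⟨univ.biUnion S, ∑ i, C i, ∑ i, κ i, fun n => ?_⟩
  choose D hD B hB hDB using fun i => h i n
  have hS : ∀ i, S i ⊆ univ.biUnion S := fun i => subset_biUnion_of_mem S (mem_univ i)
  have hq : ∀ i, q δ (C i) (κ i) n ≤ q δ (C i) (∑ i, κ i) n := fun i =>
    q_mono le_rfl (single_le_sum (fun _ _ => Nat.zero_le _) (mem_univ i))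
  have hD' : ∀ i, D i ∈ MS (univ.biUnion S) ^ q δ (C i) (∑ i, κ i) n := fun i =>
    pm (one_MS _) (hq i) (MS_mono (hS i) _ (hD i))
  have hB' : ∀ i, B i () ∈ MS (univ.biUnion S) ^ q δ (C i) (∑ i, κ i) n := fun i =>
    pm (one_MS _) (hq i) (MS_mono (hS i) _ (hB i ()))
  refine ⟨∏ i, D i, ?_, fun i => B i () * ∏ j ∈ univ.erase i, D j, fun i => ?_, ?_⟩
  · rw [← q_sum]
    exact prod_pw _ _ _ fun i _ => hD' i
  · rw [← q_sum, ← add_sum_erase univ _ (mem_univ i)]
    exact mm rfl (hB' i) (prod_pw _ _ _ fun i _ => hD' i)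
  · filter_upwards [eventually_all.2 hDB] with m hm
    refine ⟨?_, fun i => ?_⟩
    · rw [prod_apply]
      exact prod_ne_zero_iff.2 fun i _ => (hm i).1
    · have h1 := (hm i).2 ()
      rw [Pi.mul_apply, ← h1, ← mul_prod_erase univ D (mem_univ i), Pi.mul_apply]
      ring

theorem one_step {δ d b : ℕ} {S : Finset (ℕ → k)} {r : ℕ} {E : Finset (Fin r → ℕ)}
    (hE : ∀ e ∈ E, ∑ l, e l ≤ δ) {c : (Fin r → ℕ) → ℕ → k} (hc : ∀ e ∈ E, c e ∈ MS S ^ b)
    {D : ℕ → k} (hD : D ∈ MS S ^ d) {N : Fin r → ℕ → k} (hN : ∀ i, N i ∈ MS S ^ d) :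
    (∑ e ∈ E, c e * (∏ l, N l ^ e l) * D ^ (δ - ∑ l, e l)) ∈ MS S ^ (δ * d + b) := by
  refine sum_mem fun e he => ?_
  have h1 : (∏ l, N l ^ e l) ∈ MS S ^ ∑ l, e l * d := prod_pw _ _ _ fun l _ => pw _ (hN l)
  have h2 := mm rfl (mm rfl (hc e he) h1) (pw (δ - ∑ l, e l) hD)
  refine pm (one_MS S) (le_of_eq ?_) h2
  rw [← sum_mul, add_assoc, ← Nat.add_mul, Nat.add_sub_cancel' (hE e he), add_comm]

theorem one_step_eval {δ : ℕ} {r : ℕ} {E : Finset (Fin r → ℕ)}
    (hE : ∀ e ∈ E, ∑ l, e l ≤ δ) (c c' : (Fin r → ℕ) → k) (Δ D : k) (N y : Fin r → k)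
    (hc : ∀ e ∈ E, Δ * c' e = c e) (hN : ∀ i, D * y i = N i) :
    (∑ e ∈ E, c e * (∏ l, N l ^ e l) * D ^ (δ - ∑ l, e l)) =
      Δ * D ^ δ * ∑ e ∈ E, c' e * ∏ l, y l ^ e l := by
  rw [mul_sum]
  refine sum_congr rfl fun e he => ?_
  rw [← hc e he]
  have h1 : ∏ l, N l ^ e l = D ^ (∑ l, e l) * ∏ l, y l ^ e l := by
    rw [← prod_pow_eq_pow_sum, ← prod_mul_distrib]
    exact prod_congr rfl fun l _ => by rw [← hN l, mul_pow]
  rw [h1]
  have h2 : D ^ δ = D ^ (∑ l, e l) * D ^ (δ - ∑ l, e l) := by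
    rw [← pow_add, Nat.add_sub_cancel' (hE e he)]
  rw [h2]; ring

theorem bound {δ C κ : ℕ} (hδ : 1 ≤ δ) {d : ℕ → ℕ} (h0 : d 0 = 1)
    (h1 : ∀ n, d (n + 1) = δ * d n + q δ C κ n) (n : ℕ) : d n ≤ q δ (C + 1) (κ + 1) n := by
  induction n with
  | zero => rw [h0]; unfold q; simp
  | succ n ih =>
    rw [h1]
    unfold q at ih ⊢
    have h2 : (n + 1) ^ κ ≤ (n + 1 + 1) ^ κ := Nat.pow_le_pow_left (by omega) κ
    have h3 : (n + 1) ^ (κ + 1) + (n + 1) ^ κ ≤ (n + 1 + 1) ^ (κ + 1) := by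
      rw [pow_succ, pow_succ]
      nlinarith
    have h4 : 1 ≤ (n + 1) ^ κ := Nat.one_le_pow _ _ (by omega)
    have h5 : C * (n + 1) ^ κ * δ ^ n ≤ δ * ((C + 1) * (n + 1) ^ κ * δ ^ n) := by
      calc C * (n + 1) ^ κ * δ ^ n ≤ (C + 1) * (n + 1) ^ κ * δ ^ n :=
            Nat.mul_le_mul_right _ (Nat.mul_le_mul_right _ (by omega))
        _ ≤ δ * ((C + 1) * (n + 1) ^ κ * δ ^ n) := Nat.le_mul_of_pos_left _ hδ
    calc δ * d n + C * (n + 1) ^ κ * δ ^ n
        ≤ δ * ((C + 1) * (n + 1) ^ (κ + 1) * δ ^ n) + δ * ((C + 1) * (n + 1) ^ κ * δ ^ n) :=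
          Nat.add_le_add (Nat.mul_le_mul_left _ ih) h5
      _ = (C + 1) * ((n + 1) ^ (κ + 1) + (n + 1) ^ κ) * δ ^ (n + 1) := by ring
      _ ≤ (C + 1) * (n + 1 + 1) ^ (κ + 1) * δ ^ (n + 1) := by gcongr

/-- the degrees of the shifts -/
theorem Nest.gr {δ : ℕ} (hδ : 1 ≤ δ) {f : ℕ → k} (h : Nest δ f) : Gr δ f := by
  classical
  induction h with
  | const c =>
    refine ⟨∅, 0, 0, fun n => ⟨1, ?_, fun _ => algebraMap k _ c, fun _ => ?_, ?_⟩⟩
    · have h0 : q δ 0 0 n = 0 := by unfold q; simp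
      rw [h0, pow_zero]
      exact one_le.1 le_rfl
    · have h0 : q δ 0 0 n = 0 := by unfold q; simp
      rw [h0, pow_zero]
      exact algebraMap_mem c
    · exact Eventually.of_forall fun m => ⟨one_ne_zero, fun _ => by
        rw [Pi.one_apply, one_mul]; rfl⟩
  | @congr f g _ h2 ih =>
    obtain ⟨S, C, κ, h⟩ := ih
    refine ⟨S, C, κ, fun n => ?_⟩
    obtain ⟨D, hD, B, hB, hDB⟩ := h n
    refine ⟨D, hD, B, hB, ?_⟩
    filter_upwards [hDB, (tendsto_add_atTop_nat n).eventually h2] with m hm hm2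
    refine ⟨hm.1, fun i => ?_⟩
    rw [← hm2]
    exact hm.2 i
  | @add f g _ _ ih1 ih2 =>
    obtain ⟨S, C, κ, h⟩ := fam (δ := δ) ![f, g] (by
      intro i
      fin_cases i
      · exact ih1
      · exact ih2)
    refine ⟨S, C, κ, fun n => ?_⟩
    obtain ⟨D, hD, B, hB, hDB⟩ := h n
    refine ⟨D, hD, fun _ => B 0 + B 1, fun _ => add_mem (hB 0) (hB 1), ?_⟩
    filter_upwards [hDB] with m hm
    refine ⟨hm.1, fun _ => ?_⟩
    have h0 := hm.2 0
    have h1 := hm.2 1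
    simp only [Matrix.cons_val_zero, Matrix.cons_val_one] at h0 h1
    rw [Pi.add_apply, ← h0, ← h1, mul_add]
  | @mul f g _ _ ih1 ih2 =>
    obtain ⟨S, C, κ, h⟩ := fam (δ := δ) ![f, g] (by
      intro i
      fin_cases i
      · exact ih1
      · exact ih2)
    refine ⟨S, C + C, κ, fun n => ?_⟩
    obtain ⟨D, hD, B, hB, hDB⟩ := h n
    rw [← q_add]
    refine ⟨D * D, mm rfl hD hD, fun _ => B 0 * B 1, fun _ => mm rfl (hB 0) (hB 1), ?_⟩
    filter_upwards [hDB] with m hm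
    refine ⟨mul_ne_zero hm.1 hm.1, fun _ => ?_⟩
    have h0 := hm.2 0
    have h1 := hm.2 1
    simp only [Matrix.cons_val_zero, Matrix.cons_val_one] at h0 h1
    rw [Pi.mul_apply, Pi.mul_apply, ← h0, ← h1]
    ring
  | @inv f _ h2 ih =>
    obtain ⟨S, C, κ, h⟩ := ih
    refine ⟨S, C, κ, fun n => ?_⟩
    obtain ⟨D, hD, B, hB, hDB⟩ := h n
    refine ⟨B (), hB (), fun _ => D, fun _ => hD, ?_⟩
    filter_upwards [hDB, (tendsto_add_atTop_nat n).eventually h2] with m hm hm2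
    have h3 := hm.2 ()
    refine ⟨?_, fun _ => ?_⟩
    · rw [← h3]; exact mul_ne_zero hm.1 hm2
    · rw [← h3, mul_assoc, mul_inv_cancel₀ hm2, mul_one]
  | @orbit r E a b y hE _ _ h4 i iha ihb =>
    obtain ⟨S, C, κ, h⟩ := fam (δ := δ) (ι := Option (Fin r) × E)
      (fun p => p.1.elim (b p.2) fun i => a i p.2) (by
        rintro ⟨_ | i, e⟩
        · exact ihb e.1 e.2
        · exact iha i e.1 e.2)
    let Y : Fin r → ℕ → k := fun i n => y n i
    let S' := S ∪ univ.image Y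
    have hSS : S ⊆ S' := subset_union_left
    have hY : ∀ i, Y i ∈ MS S' := fun i => mem_MS (mem_union_right _ (mem_image_of_mem _ (mem_univ i)))
    obtain ⟨d, hd0, hd1⟩ : ∃ d : ℕ → ℕ, d 0 = 1 ∧ ∀ n, d (n + 1) = δ * d n + q δ C κ n :=
      ⟨fun n => Nat.rec 1 (fun n dn => δ * dn + q δ C κ n) n, rfl, fun n => rfl⟩
    have key : ∀ n, ∃ D ∈ MS S' ^ d n, ∃ N : Fin r → ℕ → k, (∀ i, N i ∈ MS S' ^ d n) ∧
        ∀ᶠ m in atTop, D m ≠ 0 ∧ ∀ i, D m * y (m + n) i = N i m := by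
      intro n
      induction n with
      | zero =>
        rw [hd0]
        refine ⟨1, by rw [pow_one]; exact one_MS _, Y, fun i => by rw [pow_one]; exact hY i, ?_⟩
        exact Eventually.of_forall fun m => ⟨one_ne_zero, fun i => by
          rw [Pi.one_apply, one_mul]; rfl⟩
      | succ n ih =>
        obtain ⟨D, hD, N, hN, hDN⟩ := ih
        obtain ⟨Δ, hΔ, B, hB, hΔB⟩ := h n
        rw [hd1]
        have hB' : ∀ p, B p ∈ MS S' ^ q δ C κ n := fun p => MS_mono hSS _ (hB p)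
        let cb : (Fin r → ℕ) → ℕ → k := fun e => if he : e ∈ E then B (none, ⟨e, he⟩) else 0
        let ca : Fin r → (Fin r → ℕ) → ℕ → k := fun i e =>
          if he : e ∈ E then B (some i, ⟨e, he⟩) else 0
        refine ⟨∑ e ∈ E, cb e * (∏ l, N l ^ e l) * D ^ (δ - ∑ l, e l),
          one_step hE (fun e he => ?_) hD hN,
          fun i => ∑ e ∈ E, ca i e * (∏ l, N l ^ e l) * D ^ (δ - ∑ l, e l),
          fun i => one_step hE (fun e he => ?_) hD hN, ?_⟩
        · simp only [cb, dif_pos he]; exact hB' _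
        · simp only [ca, dif_pos he]; exact hB' _
        · filter_upwards [hDN, hΔB, (tendsto_add_atTop_nat n).eventually h4] with m hm1 hm2 hm3
          have e1 : ∀ c : (Fin r → ℕ) → ℕ → k,
              (∑ e ∈ E, c e * (∏ l, N l ^ e l) * D ^ (δ - ∑ l, e l)) m =
              ∑ e ∈ E, c e m * (∏ l, N l m ^ e l) * D m ^ (δ - ∑ l, e l) := by
            intro c
            simp only [Finset.sum_apply, Pi.mul_apply, Finset.prod_apply, Pi.pow_apply]
          have e2 := one_step_eval hE (fun e => cb e m) (fun e => b e (m + n)) (Δ m) (D m)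
            (fun l => N l m) (y (m + n)) (fun e he => by
              have := hm2.2 (none, ⟨e, he⟩)
              simp only [cb, dif_pos he]
              exact this) hm1.2
          have e3 := fun i => one_step_eval hE (fun e => ca i e m) (fun e => a i e (m + n)) (Δ m)
            (D m) (fun l => N l m) (y (m + n)) (fun e he => by
              have := hm2.2 (some i, ⟨e, he⟩)
              simp only [ca, dif_pos he]
              exact this) hm1.2
          refine ⟨?_, fun i => ?_⟩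
          · rw [e1, e2]
            exact mul_ne_zero (mul_ne_zero hm2.1 (pow_ne_zero _ hm1.1)) hm3.1
          · rw [e1, e1, e2, e3, ← hm3.2 i]
            rw [show m + (n + 1) = m + n + 1 by ring]
            ring
    refine ⟨S', C + 1, κ + 1, fun n => ?_⟩
    obtain ⟨D, hD, N, hN, hDN⟩ := key n
    have hb := bound hδ hd0 hd1 n
    refine ⟨D, pm (one_MS _) hb hD, fun _ => N i, fun _ => pm (one_MS _) hb (hN i), ?_⟩
    filter_upwards [hDN] with m hm
    exact ⟨hm.1, fun _ => hm.2 i⟩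

end Pool.Agent.T6.H45.KN
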